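import Pool.Agent.Lib.MP_78b700_nt.HV.RNK
import Pool.Agent.Lib.MP_78b700_nt.HV.Stmt
import Pool.Agent.Lib.MP_78b700_nt.HV.APX
import Pool.Agent.Lib.MP_78b700_nt.HV.CHA
import Pool.Agent.Lib.MP_78b700_nt.HV.Zlb

/-!
# The Harari-Voloch conjecture for `P^1 - D` when a torus quotient has unit rank at most one
-/

set_option autoImplicit false

open Pool.Agent.Lib.MP_78b700_nt.HV

namespace Pool.Agent.Results.MP_78b700_nt.RankAtMostOne

/-- Let `F` be a number field, `S` a finite set of primes of `F`, `D` the set of zeros of a
separable polynomial `f` over `F` which splits in the Galois extension `L` of `F`, `X = P^1 - D`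
and `T` the torus with character module `Div^0_D`. Assume `CritA`, `CritB` or `CritC`. Then
`X(A_L^S) ∩ closure T(F) = X(F)` inside `T(A_L^S)`. -/
theorem result : MainStatement := by
  have hGalv := specGalv
  have hGaln := specGALN hGalv
  have hPla := specPla hGalv
  have hExtv := specExtv
  have hSub := specSub
  have hLow := specLow specAng specLte
  have hSpl := specSPL
  have hChe := specChe specZub specZlb
  have hKum := specKum specSah
  have hLmq := specLmq hKum hSpl hChe
  have hZed := specZED hLmq specSUF (specPWR hGaln hExtv) hExtv
  have hRon := specRon specGap specTop hLow specSiz specMod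
  exact mainStatement_of <| statement_of (specPlc hGalv hExtv) (specRnk hPla) specVcy specCha specChb
    AbsM.specAbs specAPX specFna specRev (specRel hSub) (specAlx hSub) (specKap hGaln) hRon hZed

end Pool.Agent.Results.MP_78b700_nt.RankAtMostOne
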